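import Mathlib
import Pool.Agent.X320.D4.Final

/-!
# The Fano scheme of `10`-planes in the variety of `5 × 5` matrices of rank at most `3`

Over every algebraically closed field the Fano scheme `F_10(D^4_{5,5})` is not connected.
-/

set_option autoImplicit false

open Module Matrix

universe u

namespace Pool.Agent.Results.MP_d51aa1_ag.Disconnected

open Pool.Agent.X320.D4

/-- The space `V` of `5 × 5` matrices is a compression space of type `(p, q)`: there are subspaces
`U` and `W` of `K^5`, of dimensions `p` and `q`, with `w ⬝ B u = 0` for all `B` in `V`, `u` in `U`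
and `w` in `W`. -/
def IsCompression {K : Type u} [Field K] (p q : ℕ)
    (V : Submodule K (Matrix (Fin 5) (Fin 5) K)) : Prop :=
  ∃ U W : Submodule K (Fin 5 → K), finrank K U = p ∧ finrank K W = q ∧
    ∀ B ∈ V, ∀ u ∈ U, ∀ w ∈ W, w ⬝ᵥ (B *ᵥ u) = 0

lemma exists_le_finrank {K : Type u} [Field K] (p : ℕ) (U : Submodule K (Fin 5 → K))
    (h : p ≤ finrank K U) : ∃ U' : Submodule K (Fin 5 → K), U' ≤ U ∧ finrank K U' = p := by
  let b := Module.finBasis K U
  let e : Fin p → U := fun i => b (Fin.castLE h i)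
  have he : LinearIndependent K e :=
    b.linearIndependent.comp _ (Fin.castLE_injective h)
  have he2 : LinearIndependent K (fun i => (e i : Fin 5 → K)) :=
    he.map' U.subtype (Submodule.ker_subtype U)
  refine ⟨Submodule.span K (Set.range fun i => (e i : Fin 5 → K)), ?_, ?_⟩
  · rw [Submodule.span_le]
    rintro _ ⟨i, rfl⟩
    exact (e i).2
  · rw [finrank_span_eq_card he2, Fintype.card_fin]

lemma isCompression_iff {K : Type u} [Field K] (p q : ℕ)
    (V : Submodule K (Matrix (Fin 5) (Fin 5) K)) : IsCompression p q V ↔ Comp p q V := by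
  constructor
  · rintro ⟨U, W, hU, hW, h⟩
    exact ⟨U, W, hU.ge, hW.ge, h⟩
  · rintro ⟨U, W, hU, hW, h⟩
    obtain ⟨U', hU'U, hU'⟩ := exists_le_finrank p U hU
    obtain ⟨W', hW'W, hW'⟩ := exists_le_finrank q W hW
    exact ⟨U', W', hU', hW', fun B hB u hu w hw => h B hB u (hU'U hu) w (hW'W hw)⟩

/-- Let `K` be an algebraically closed field of any characteristic. The Fano scheme
`F_10(D^4_{5,5})` of the projective `10`-planes in the variety of `5 × 5` matrices of rank at most
`3` is not connected: it is the union of two disjoint nonempty closed subsets, namely the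
compression spaces of type `(5, 2)` or `(4, 3)` and those of type `(3, 4)` or `(2, 5)`. -/
theorem result (K : Type u) [Field K] [IsAlgClosed K] :
    let Z₁ : Set (Gr K) := {V | IsCompression 5 2 V.1 ∨ IsCompression 4 3 V.1}
    let Z₂ : Set (Gr K) := {V | IsCompression 3 4 V.1 ∨ IsCompression 2 5 V.1}
    (IsClosed Z₁ ∧ IsClosed Z₂ ∧ Z₁.Nonempty ∧ Z₂.Nonempty ∧ Z₁ ∩ Z₂ = ∅ ∧
      Fano K = Z₁ ∪ Z₂) ∧ ¬ IsConnected (Fano K) := by
  intro Z₁ Z₂
  have h := main K
  simp only [← isCompression_iff] at h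
  obtain ⟨h1, h2, h3, h4, h5, h6⟩ := h
  refine ⟨⟨h1, h2, h3, h4, Set.disjoint_iff_inter_eq_empty.1 h5, h6.symm⟩, ?_⟩
  intro hcon
  have h7 := (isPreconnected_closed_iff.1 hcon.isPreconnected) Z₁ Z₂ h1 h2 h6.ge
    (by rw [← h6]; obtain ⟨x, hx⟩ := h3; exact ⟨x, Or.inl hx, hx⟩)
    (by rw [← h6]; obtain ⟨x, hx⟩ := h4; exact ⟨x, Or.inr hx, hx⟩)
  obtain ⟨x, _, hx1, hx2⟩ := h7
  exact Set.disjoint_left.1 h5 hx1 hx2

end Pool.Agent.Results.MP_d51aa1_ag.Disconnected
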